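import Pool.Agent.Q237.LR.Stm3

/-! Job SCL of the project LR (helper58): scaling of the Gaussian potential. -/

set_option autoImplicit false

namespace Pool.Agent.Q58.LR

open MeasureTheory ProbabilityTheory Set H10PL Pool.Agent.Q237.LR3

theorem scl_aux (d : ℕ) (σ : ℝ) (v : NNReal) (hv : v = NNReal.mk (σ ^ 2) (sq_nonneg σ)) :
    PV d v = (Measure.infinitePi fun _ : (Fin d → ℤ) => gaussianReal 0 1).map
      fun ξ x => σ * ξ x := by
  symm
  unfold PV
  have hmeas : Measurable (fun (ξ : (Fin d → ℤ) → ℝ) (x : Fin d → ℤ) => σ * ξ x) := by fun_prop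
  refine Measure.eq_infinitePi _ fun s t ht => ?_
  rw [Measure.map_apply hmeas (MeasurableSet.pi s.countable_toSet fun i _ => ht i)]
  have hpre : (fun (ξ : (Fin d → ℤ) → ℝ) (x : Fin d → ℤ) => σ * ξ x) ⁻¹' (Set.pi s t) =
      Set.pi s (fun i => (fun y : ℝ => σ * y) ⁻¹' t i) := by
    ext ξ; rfl
  have hm1 : Measurable (fun y : ℝ => σ * y) := by fun_prop
  rw [hpre, Measure.infinitePi_pi _ (fun i _ => hm1 (ht i))]
  refine Finset.prod_congr rfl fun i _ => ?_
  rw [← Measure.map_apply hm1 (ht i), gaussianReal_map_const_mul, mul_zero, mul_one, hv]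

theorem scl : S_SCL := fun d σ => scl_aux d σ _ rfl

end Pool.Agent.Q58.LR
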